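import Mathlib
import Pool.Agent.PnPoly.NC.Mert
import Pool.Agent.HL26.Second

set_option autoImplicit false

open Finset Filter

namespace Pool.Agent.QNP

open Pool.Agent.HL26

lemma card_primeFactors_le (d : ℕ) (hd : 1 ≤ d) : 2 ^ d.primeFactors.card ≤ d := by
  calc 2 ^ d.primeFactors.card ≤ ∏ p ∈ d.primeFactors, p := by
        rw [← Finset.prod_const]
        exact Finset.prod_le_prod' (fun p hp => (Nat.prime_of_mem_primeFactors hp).two_le)
    _ ≤ d := Nat.le_of_dvd (by omega) (Nat.prod_primeFactors_dvd d)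

lemma one_le_prod_real (A : Finset ℕ) (f : ℕ → ℝ) (hf : ∀ p ∈ A, 1 ≤ f p) : 1 ≤ ∏ p ∈ A, f p := by
  calc (1:ℝ) = ∏ p ∈ A, 1 := by simp
    _ ≤ _ := Finset.prod_le_prod (fun _ _ => by norm_num) hf

lemma prod_sub_le (A B : Finset ℕ) (h : A ⊆ B) (f : ℕ → ℝ) (hf : ∀ p ∈ B, 1 ≤ f p) :
    ∏ p ∈ A, f p ≤ ∏ p ∈ B, f p := by
  rw [← Finset.prod_sdiff h]
  apply le_mul_of_one_le_left
  · apply Finset.prod_nonneg
    intro p hp
    linarith [hf p (h hp)]
  · apply one_le_prod_real
    intro p hp
    exact hf p (Finset.mem_sdiff.1 hp).1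

/-- `d / phi(d)` is at most a constant times `log log N` for `d <= N` -/
lemma G0_le (N : ℕ) (hN : 8 ≤ Real.log N) (d : ℕ) (hd : 1 ≤ d) (hdN : d ≤ N) :
    G0 d ≤ Real.exp 10 * Real.log (Real.log N) := by
  classical
  set L : ℝ := Real.log N with hL
  set w : ℕ := ⌈L⌉₊ with hw
  have hw1 : L ≤ w := Nat.le_ceil _
  have hw2 : (w:ℝ) < L + 1 := Nat.ceil_lt_add_one (by linarith)
  have hw3 : 2 ≤ w := by
    have : (2:ℝ) ≤ w := by linarith
    exact_mod_cast this
  have hwr : (2:ℝ) ≤ w := by exact_mod_cast hw3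
  have hfac : ∀ p : ℕ, p.Prime → 1 ≤ (1 - 1 / (p : ℝ))⁻¹ := one_le_fac
  have h1 : ∏ p ∈ d.primeFactors.filter (fun p => p ≤ w), (1 - 1 / (p : ℝ))⁻¹ ≤
      Real.exp 5 * Real.log w := by
    refine le_trans ?_ (Pool.Agent.PnPoly.NC.prod_fac_le w hw3)
    apply prod_sub_le
    · intro p hp
      rw [mem_filter] at hp
      unfold PPy
      rw [mem_filter, mem_range]
      exact ⟨by omega, Nat.prime_of_mem_primeFactors hp.1⟩
    · intro p hp
      exact hfac p (PPy_prime w p hp)
  -- the large primes
  have hcard : (d.primeFactors.card : ℝ) ≤ 2 * L := by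
    have h2 : ((2:ℝ)) ^ d.primeFactors.card ≤ N := by
      have := le_trans (card_primeFactors_le d hd) hdN
      exact_mod_cast this
    have h3 := Real.log_le_log (by positivity) h2
    rw [Real.log_pow] at h3
    have h4 : (1:ℝ) / 2 ≤ Real.log 2 := by
      have := Real.log_two_gt_d9
      linarith
    have h5 : (0:ℝ) ≤ d.primeFactors.card := by positivity
    nlinarith
  have h6 : ∏ p ∈ d.primeFactors.filter (fun p => ¬ p ≤ w), (1 - 1 / (p : ℝ))⁻¹ ≤ Real.exp 4 := by
    have h7 : ∀ p ∈ d.primeFactors.filter (fun p => ¬ p ≤ w), (1 - 1 / (p : ℝ))⁻¹ ≤ Real.exp (2 / L) := by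
      intro p hp
      rw [mem_filter] at hp
      have hpw : (w:ℝ) ≤ p := by
        have : w ≤ p := by omega
        exact_mod_cast this
      have hp0 : (0:ℝ) < p := by linarith
      have h8 : (1 - 1 / (p : ℝ))⁻¹ ≤ 1 + 2 / p := by
        rw [inv_le_comm₀ (by
          have : 1 / (p:ℝ) < 1 := by rw [div_lt_one hp0]; linarith
          linarith) (by positivity)]
        rw [inv_eq_one_div, div_le_iff₀ (by positivity)]
        have h9 : (1 - 1 / (p:ℝ)) * (1 + 2 / p) = 1 + (p - 2) / p ^ 2 := by
          field_simp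
          ring
        rw [h9]
        have : 0 ≤ ((p:ℝ) - 2) / p ^ 2 := by
          apply div_nonneg _ (by positivity)
          linarith
        linarith
      refine le_trans h8 ?_
      have h10 : (2:ℝ) / p ≤ 2 / L := div_le_div_of_nonneg_left (by norm_num) (by linarith) (by linarith)
      have h11 := Real.add_one_le_exp (2 / L)
      linarith
    have h12 : (d.primeFactors.filter (fun p => ¬ p ≤ w)).card ≤ d.primeFactors.card := card_filter_le _ _
    calc ∏ p ∈ d.primeFactors.filter (fun p => ¬ p ≤ w), (1 - 1 / (p : ℝ))⁻¹ ≤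
        ∏ p ∈ d.primeFactors.filter (fun p => ¬ p ≤ w), Real.exp (2 / L) := by
          apply Finset.prod_le_prod
          · intro p hp
            have := hfac p (Nat.prime_of_mem_primeFactors (mem_filter.1 hp).1)
            linarith
          · exact h7
      _ = Real.exp (((d.primeFactors.filter (fun p => ¬ p ≤ w)).card : ℝ) * (2 / L)) := by
          rw [prod_const, ← Real.exp_nat_mul]
      _ ≤ Real.exp 4 := by
          apply Real.exp_le_exp.2
          have h13 : ((d.primeFactors.filter (fun p => ¬ p ≤ w)).card : ℝ) ≤ 2 * L :=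
            le_trans (by exact_mod_cast h12) hcard
          have h14 : (0:ℝ) ≤ 2 / L := by
            apply div_nonneg (by norm_num) (by linarith)
          calc _ ≤ 2 * L * (2 / L) := mul_le_mul_of_nonneg_right h13 h14
            _ = 4 := by
              have : L ≠ 0 := by linarith
              field_simp
              norm_num
  have h15 : Real.log w ≤ 2 * Real.log L := by
    have h16 : (w:ℝ) ≤ L ^ 2 := by nlinarith
    have h17 := Real.log_le_log (by linarith) h16
    rw [Real.log_pow] at h17
    exact_mod_cast h17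
  have hlL : 0 < Real.log L := Real.log_pos (by linarith)
  have h18 : (2:ℝ) ≤ Real.exp 1 := by
    have := Real.add_one_le_exp (1:ℝ)
    linarith
  unfold G0
  rw [← Finset.prod_filter_mul_prod_filter_not d.primeFactors (fun p => p ≤ w)]
  calc _ ≤ (Real.exp 5 * Real.log w) * Real.exp 4 := by
        apply mul_le_mul h1 h6
        · have := one_le_prod_real (d.primeFactors.filter (fun p => ¬ p ≤ w)) (fun p => (1 - 1 / (p : ℝ))⁻¹)
            (fun p hp => hfac p (Nat.prime_of_mem_primeFactors (mem_filter.1 hp).1))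
          linarith
        · have : 0 ≤ Real.log w := Real.log_nonneg (by linarith)
          positivity
    _ ≤ (Real.exp 5 * (2 * Real.log L)) * Real.exp 4 := by
        apply mul_le_mul_of_nonneg_right _ (by positivity)
        apply mul_le_mul_of_nonneg_left h15 (by positivity)
    _ = 2 * (Real.exp 9 * Real.log L) := by
        have : Real.exp 9 = Real.exp 5 * Real.exp 4 := by rw [← Real.exp_add]; norm_num
        rw [this]; ring
    _ ≤ Real.exp 1 * (Real.exp 9 * Real.log L) := by
        apply mul_le_mul_of_nonneg_right h18 (by positivity)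
    _ = Real.exp 10 * Real.log L := by
        have : Real.exp 10 = Real.exp 1 * Real.exp 9 := by rw [← Real.exp_add]; norm_num
        rw [this]; ring

end Pool.Agent.QNP
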