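import Mathlib
import Pool.Agent.QNP.Phi
import Pool.Agent.HLT.APMoment

set_option autoImplicit false

open Finset Filter

namespace Pool.Agent.QNP

open Pool.Agent.HL26 Pool.Agent.HLT

/-- the number of `p <= N` with `p` and `p + d` prime -/
def pairs (N d : ℕ) : ℕ := ((Icc 1 N).filter (fun p => p.Prime ∧ (p + d).Prime)).card

lemma prs_pair (d : ℕ) (hd : 1 ≤ d) : prs {0, d} = {(0, d)} := by
  ext ⟨a, b⟩
  unfold prs
  simp only [mem_filter, mem_product, mem_insert, mem_singleton, Prod.mk.injEq]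
  constructor
  · rintro ⟨⟨h1, h2⟩, h3⟩
    omega
  · rintro ⟨h1, h2⟩
    omega

/-- the sieve bound for pairs, uniform in the difference -/
theorem pairs_le : ∃ C : ℝ, 0 < C ∧ ∃ N0 : ℕ, ∀ N : ℕ, N0 ≤ N → ∀ d : ℕ, 1 ≤ d → d ≤ N →
    (pairs N d : ℝ) ≤ C * (N / (Real.log N) ^ 2 * Real.log (Real.log N)) := by
  classical
  obtain ⟨C, hC, hp⟩ := APMomentAux.exists_pointwise 1
  have ev : ∀ᶠ x : ℝ in atTop, (∀ e : Fin (1 + 1) → ℕ, Function.Injective e →
      cx 1 x e ≤ C * singularSeries (Finset.univ.image e) + 1) ∧ 8 ≤ Real.log x :=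
    hp.and (Real.tendsto_log_atTop.eventually_ge_atTop 8)
  obtain ⟨X1, hX1⟩ := Filter.eventually_atTop.1 ev
  refine ⟨C * (Real.exp ((2:ℝ) ^ 3) * Real.exp 10) + 1, by positivity, max ⌈X1⌉₊ 1, ?_⟩
  intro N hN d hd hdN
  have hN1 : X1 ≤ (N:ℝ) := le_trans (Nat.le_ceil _) (by exact_mod_cast le_trans (le_max_left _ _) hN)
  have hN2 : 1 ≤ N := le_trans (le_max_right _ _) hN
  obtain ⟨h1, h2⟩ := hX1 N hN1
  have hNr : (0:ℝ) < N := by exact_mod_cast hN2
  have he : Function.Injective ![0, d] := by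
    intro i j hij
    fin_cases i <;> fin_cases j
    · rfl
    · simp at hij; omega
    · simp at hij; omega
    · rfl
  have h3 := h1 ![0, d] he
  have himg : Finset.univ.image ![0, d] = ({0, d} : Finset ℕ) := by
    ext a
    simp only [mem_image, mem_univ, true_and, mem_insert, mem_singleton]
    constructor
    · rintro ⟨i, rfl⟩
      fin_cases i
      · left; rfl
      · right; rfl
    · rintro (h | h)
      · exact ⟨0, by simp [h]⟩
      · exact ⟨1, by simp [h]⟩
  rw [himg] at h3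
  unfold cx at h3
  rw [himg] at h3
  have h4 : (pairs N d : ℝ) ≤ (tupleCount (N:ℝ) {0, d} : ℝ) := by
    unfold pairs tupleCount
    rw [Nat.floor_natCast]
    norm_cast
    apply card_le_card
    intro p hp
    rw [mem_filter] at hp ⊢
    refine ⟨hp.1, ?_⟩
    intro e he
    rw [mem_insert, mem_singleton] at he
    rcases he with rfl | rfl
    · exact hp.2.1
    · exact hp.2.2
  have hS := singularSeries_le_prod {0, d} ⟨0, by simp⟩
  have hcard : ({0, d} : Finset ℕ).card = 2 := by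
    rw [card_pair]
    omega
  rw [prs_pair d hd, hcard] at hS
  simp only [prod_singleton] at hS
  have hG := G0_le N h2 d hd hdN
  set LL : ℝ := Real.log (Real.log N) with hLL
  have hLL1 : 1 ≤ LL := by
    rw [hLL, Real.le_log_iff_exp_le (by linarith)]
    have := Real.exp_one_lt_d9
    linarith
  have hS2 : singularSeries {0, d} ≤ Real.exp ((2:ℝ) ^ 3) * (Real.exp 10 * LL) := by
    refine le_trans hS ?_
    have e1 : G0 (d - 0) ^ (2 - 1) = G0 d := by simp
    rw [e1]
    push_cast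
    exact mul_le_mul_of_nonneg_left hG (by positivity)
  have h5 : (Real.log N) ^ 2 / N * (tupleCount (N:ℝ) {0, d} : ℝ) ≤
      (C * (Real.exp ((2:ℝ) ^ 3) * Real.exp 10) + 1) * LL := by
    refine le_trans h3 ?_
    have := mul_le_mul_of_nonneg_left hS2 hC.le
    have e2 : C * (Real.exp ((2:ℝ) ^ 3) * (Real.exp 10 * LL)) =
      C * (Real.exp ((2:ℝ) ^ 3) * Real.exp 10) * LL := by ring
    linarith
  have hl : 0 < Real.log N := by linarith
  have h6 : (tupleCount (N:ℝ) {0, d} : ℝ) ≤
      (C * (Real.exp ((2:ℝ) ^ 3) * Real.exp 10) + 1) * LL * (N / (Real.log N) ^ 2) := by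
    have h7 := mul_le_mul_of_nonneg_right h5 (show 0 ≤ N / (Real.log N) ^ 2 by positivity)
    have h8 : (Real.log N) ^ 2 / N * (tupleCount (N:ℝ) {0, d} : ℝ) * (N / (Real.log N) ^ 2) =
      (tupleCount (N:ℝ) {0, d} : ℝ) := by
      field_simp
    rw [h8] at h7
    exact h7
  refine le_trans (le_trans h4 h6) (le_of_eq ?_)
  ring

end Pool.Agent.QNP
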