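import Mathlib
import Pool.Agent.QNP.Pair
import Pool.Agent.E139P.Cheb

set_option autoImplicit false

open Finset Filter
open scoped Pointwise

namespace Pool.Agent.QNP

lemma fiber_le (P F : Finset ℕ) (B : ℕ)
    (hB : ∀ d : ℕ, (∃ m ∈ F, ∃ m' ∈ F, m < m' ∧ d = m' - m) → (P.filter (fun p => p + d ∈ P)).card ≤ B)
    (q : ℕ × ℕ) (hq : q ∈ F ×ˢ F) :
    ((((P ×ˢ P) ×ˢ F ×ˢ F).filter (fun x => x.1.1 + x.2.1 = x.1.2 + x.2.2)).filter (fun x => x.2 = q)).card ≤
      (if q.1 = q.2 then P.card else 0) + B := by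
  rw [mem_product] at hq
  rcases lt_trichotomy q.1 q.2 with h | h | h
  · rw [if_neg (by omega), zero_add]
    refine le_trans ?_ (hB (q.2 - q.1) ⟨q.1, hq.1, q.2, hq.2, h, rfl⟩)
    refine card_le_card_of_injOn (fun x => x.1.2) ?_ ?_
    · intro x hx
      simp only [coe_filter, mem_filter, mem_product, Set.mem_ofPred_eq] at hx
      obtain ⟨⟨⟨⟨h1, h2⟩, h3, h4⟩, h5⟩, h6⟩ := hx
      rw [mem_coe, mem_filter]
      refine ⟨h2, ?_⟩
      have e : x.1.2 + (q.2 - q.1) = x.1.1 := by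
        rw [← h6] at h ⊢
        omega
      show x.1.2 + (q.2 - q.1) ∈ P
      rw [e]
      exact h1
    · intro x hx y hy hxy
      simp only [coe_filter, mem_filter, mem_product, Set.mem_ofPred_eq] at hx hy
      obtain ⟨⟨⟨⟨h1, h2⟩, h3, h4⟩, h5⟩, h6⟩ := hx
      obtain ⟨⟨⟨⟨g1, g2⟩, g3, g4⟩, g5⟩, g6⟩ := hy
      have e : x.1.2 = y.1.2 := hxy
      have e2 : x.2 = y.2 := by rw [h6, g6]
      have e3 : x.1.1 = y.1.1 := by
        rw [e2] at h5
        omega
      exact Prod.ext (Prod.ext e3 e) e2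
  · rw [if_pos h]
    refine le_trans ?_ (Nat.le_add_right _ _)
    refine card_le_card_of_injOn (fun x => x.1.2) ?_ ?_
    · intro x hx
      simp only [coe_filter, mem_filter, mem_product, Set.mem_ofPred_eq] at hx
      obtain ⟨⟨⟨⟨h1, h2⟩, h3, h4⟩, h5⟩, h6⟩ := hx
      exact h2
    · intro x hx y hy hxy
      simp only [coe_filter, mem_filter, mem_product, Set.mem_ofPred_eq] at hx hy
      obtain ⟨⟨⟨⟨h1, h2⟩, h3, h4⟩, h5⟩, h6⟩ := hx
      obtain ⟨⟨⟨⟨g1, g2⟩, g3, g4⟩, g5⟩, g6⟩ := hy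
      have e : x.1.2 = y.1.2 := hxy
      have e2 : x.2 = y.2 := by rw [h6, g6]
      have e3 : x.1.1 = y.1.1 := by
        rw [e2] at h5
        omega
      exact Prod.ext (Prod.ext e3 e) e2
  · rw [if_neg (by omega), zero_add]
    refine le_trans ?_ (hB (q.1 - q.2) ⟨q.2, hq.2, q.1, hq.1, h, rfl⟩)
    refine card_le_card_of_injOn (fun x => x.1.1) ?_ ?_
    · intro x hx
      simp only [coe_filter, mem_filter, mem_product, Set.mem_ofPred_eq] at hx
      obtain ⟨⟨⟨⟨h1, h2⟩, h3, h4⟩, h5⟩, h6⟩ := hx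
      rw [mem_coe, mem_filter]
      refine ⟨h1, ?_⟩
      have e : x.1.1 + (q.1 - q.2) = x.1.2 := by
        rw [← h6] at h ⊢
        omega
      show x.1.1 + (q.1 - q.2) ∈ P
      rw [e]
      exact h2
    · intro x hx y hy hxy
      simp only [coe_filter, mem_filter, mem_product, Set.mem_ofPred_eq] at hx hy
      obtain ⟨⟨⟨⟨h1, h2⟩, h3, h4⟩, h5⟩, h6⟩ := hx
      obtain ⟨⟨⟨⟨g1, g2⟩, g3, g4⟩, g5⟩, g6⟩ := hy
      have e : x.1.1 = y.1.1 := hxy
      have e2 : x.2 = y.2 := by rw [h6, g6]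
      have e3 : x.1.2 = y.1.2 := by
        rw [e2] at h5
        omega
      exact Prod.ext (Prod.ext e e3) e2

/-- the additive energy of a set against a set with few coincidences -/
lemma energy_le (P F : Finset ℕ) (B : ℕ)
    (hB : ∀ d : ℕ, (∃ m ∈ F, ∃ m' ∈ F, m < m' ∧ d = m' - m) → (P.filter (fun p => p + d ∈ P)).card ≤ B) :
    addEnergy P F ≤ F.card * P.card + F.card ^ 2 * B := by
  unfold addEnergy
  have hmaps : ∀ x ∈ ((P ×ˢ P) ×ˢ F ×ˢ F).filter (fun x => x.1.1 + x.2.1 = x.1.2 + x.2.2), x.2 ∈ F ×ˢ F := by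
    intro x hx
    rw [mem_filter, mem_product] at hx
    exact hx.1.2
  rw [card_eq_sum_card_fiberwise hmaps]
  refine le_trans (sum_le_sum (fun q hq => fiber_le P F B hB q hq)) ?_
  rw [sum_add_distrib, sum_const, card_product, smul_eq_mul, ← sum_filter, sum_const, smul_eq_mul]
  have h1 : ((F ×ˢ F).filter (fun q => q.1 = q.2)).card ≤ F.card := by
    refine card_le_card_of_injOn (fun q => q.1) ?_ ?_
    · intro q hq
      simp only [coe_filter, mem_product, Set.mem_ofPred_eq] at hq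
      exact hq.1.1
    · intro q hq r hr h
      simp only [coe_filter, mem_product, Set.mem_ofPred_eq] at hq hr
      have e : q.1 = r.1 := h
      exact Prod.ext e (by rw [← hq.2, ← hr.2, e])
  have h2 := Nat.mul_le_mul_right P.card h1
  have h3 : F.card * F.card * B = F.card ^ 2 * B := by ring
  rw [h3]
  omega

lemma card_primes (N : ℕ) : Nat.primeCounting N = ((Icc 1 N).filter Nat.Prime).card := by
  rw [Nat.primeCounting, Nat.primeCounting', Nat.count_eq_card_filter_range]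
  congr 1
  ext p
  simp only [mem_filter, mem_range, mem_Icc]
  constructor
  · rintro ⟨h1, h2⟩
    exact ⟨⟨h2.one_lt.le, by omega⟩, h2⟩
  · rintro ⟨h1, h2⟩
    exact ⟨by omega, h2⟩

theorem low : ∃ c : ℝ, 0 < c ∧ ∃ N₀ : ℕ, ∀ N : ℕ, N₀ ≤ N → ∀ F : Finset ℕ,
    (∀ m ∈ F, 1 ≤ m ∧ 2 * m ≤ N) →
    c * min ((F.card : ℝ) / Real.log N) (1 / Real.log (Real.log N)) * N ≤
      (((Finset.Icc 1 N).filter fun n => ∃ m ∈ F, (n - m).Prime).card : ℝ) := by
  classical
  obtain ⟨a, ha, N1, hlow⟩ := Pool.Agent.E139P.pi_low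
  obtain ⟨C, hC, N2, hpairs⟩ := pairs_le
  obtain ⟨X1, hX1⟩ := Filter.eventually_atTop.1
    ((Real.tendsto_log_atTop.eventually_ge_atTop (8:ℝ)).and
      (Filter.eventually_ge_atTop (16:ℝ)))
  refine ⟨a / 4 / (1 + 4 * (C + 1) / a), by positivity,
    max (max (2 * N1 + 2) N2) (max ⌈X1⌉₊ 16), ?_⟩
  intro N hN F hF
  have hN1 : 2 * N1 + 2 ≤ N := le_trans (le_trans (le_max_left _ _) (le_max_left _ _)) hN
  have hN2 : N2 ≤ N := le_trans (le_trans (le_max_right _ _) (le_max_left _ _)) hN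
  have hNX : X1 ≤ (N:ℝ) :=
    le_trans (Nat.le_ceil _) (by exact_mod_cast le_trans (le_trans (le_max_left _ _) (le_max_right _ _)) hN)
  obtain ⟨hl8, hN16⟩ := hX1 N hNX
  have hN16' : 16 ≤ N := by exact_mod_cast hN16
  set L : ℝ := Real.log N with hL
  set LL : ℝ := Real.log L with hLL
  have hLL1 : 1 ≤ LL := by
    rw [hLL, Real.le_log_iff_exp_le (by linarith)]
    have := Real.exp_one_lt_d9
    linarith
  have hN0 : (0:ℝ) < N := by linarith
  set P := (Icc 1 (N / 2)).filter Nat.Prime with hP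
  -- lower bound for P
  have hPl : a / 4 * (N / L) ≤ (P.card : ℝ) := by
    have h1 := hlow (N / 2) (by omega)
    rw [card_primes, ← hP] at h1
    refine le_trans ?_ h1
    have h2 : (N:ℝ) / 4 ≤ ((N / 2 : ℕ) : ℝ) := by
      have : N ≤ 4 * (N / 2) := by omega
      have h3 : (N:ℝ) ≤ 4 * ((N / 2 : ℕ) : ℝ) := by exact_mod_cast this
      linarith
    have h4 : 0 < Real.log ((N / 2 : ℕ) : ℝ) := Real.log_pos (by linarith)
    have h5 : Real.log ((N / 2 : ℕ) : ℝ) ≤ L := by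
      apply Real.log_le_log (by linarith)
      have : N / 2 ≤ N := Nat.div_le_self _ _
      exact_mod_cast this
    have h6 : (N:ℝ) / 4 / L ≤ ((N / 2 : ℕ) : ℝ) / Real.log ((N / 2 : ℕ) : ℝ) :=
      div_le_div₀ (by linarith) h2 h4 h5
    calc a / 4 * (N / L) = a * (N / 4 / L) := by ring
      _ ≤ _ := mul_le_mul_of_nonneg_left h6 ha.le
  -- the bound for the pairs
  set Br : ℝ := C * (N / L ^ 2 * LL) with hBr
  have hBr0 : 0 < Br := by positivity
  have hB : ∀ d : ℕ, (∃ m ∈ F, ∃ m' ∈ F, m < m' ∧ d = m' - m) →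
      (P.filter (fun p => p + d ∈ P)).card ≤ ⌊Br⌋₊ := by
    rintro d ⟨m, hm, m', hm', hlt, rfl⟩
    have h1 := (hF m' hm').2
    have h2 := hpairs N hN2 (m' - m) (by omega) (by omega)
    apply Nat.le_floor
    refine le_trans ?_ h2
    unfold pairs
    norm_cast
    apply card_le_card
    intro p hp
    rw [hP] at hp
    simp only [mem_filter, mem_Icc] at hp ⊢
    obtain ⟨⟨⟨h3, h4⟩, h5⟩, ⟨h6, h7⟩, h8⟩ := hp
    exact ⟨⟨h3, by omega⟩, h5, h8⟩
  have hen := energy_le P F ⌊Br⌋₊ hB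
  have hcs := le_card_add_mul_addEnergy P F
  have hsub : P + F ⊆ (Finset.Icc 1 N).filter fun n => ∃ m ∈ F, (n - m).Prime := by
    intro n hn
    rw [Finset.mem_add] at hn
    obtain ⟨p, hp, m, hm, rfl⟩ := hn
    rw [hP, mem_filter, mem_Icc] at hp
    have := (hF m hm).2
    rw [mem_filter, mem_Icc]
    refine ⟨by omega, m, hm, ?_⟩
    rw [Nat.add_sub_cancel]
    exact hp.2
  have hTc := card_le_card hsub
  rcases Finset.eq_empty_or_nonempty F with hF0 | hF0
  · rw [hF0]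
    simp only [card_empty, Nat.cast_zero, zero_div]
    rw [min_eq_left (by positivity)]
    simp
  have hk : (1:ℝ) ≤ F.card := by
    have := card_pos.2 hF0
    exact_mod_cast this
  set k : ℝ := (F.card : ℝ) with hkdef
  set Pr : ℝ := (P.card : ℝ) with hPr
  have hPr0 : 0 < Pr := lt_of_lt_of_le (by positivity) hPl
  set S : ℝ := (((Finset.Icc 1 N).filter fun n => ∃ m ∈ F, (n - m).Prime).card : ℝ) with hS
  have hmain : Pr ^ 2 * k ^ 2 ≤ S * (k * Pr + k ^ 2 * Br) := by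
    have h1 : (P.card : ℝ) ^ 2 * (F.card : ℝ) ^ 2 ≤ ((P + F).card : ℝ) * (addEnergy P F : ℝ) := by
      exact_mod_cast hcs
    have h2 : ((P + F).card : ℝ) ≤ S := by rw [hS]; exact_mod_cast hTc
    have h3 : (addEnergy P F : ℝ) ≤ k * Pr + k ^ 2 * (⌊Br⌋₊ : ℝ) := by
      rw [hkdef, hPr]
      exact_mod_cast hen
    have h4 : (⌊Br⌋₊ : ℝ) ≤ Br := Nat.floor_le hBr0.le
    have h5 : (addEnergy P F : ℝ) ≤ k * Pr + k ^ 2 * Br := by
      have := mul_le_mul_of_nonneg_left h4 (show 0 ≤ k ^ 2 by positivity)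
      linarith
    calc _ ≤ ((P + F).card : ℝ) * (addEnergy P F : ℝ) := h1
      _ ≤ S * (k * Pr + k ^ 2 * Br) := mul_le_mul h2 h5 (by positivity) (by positivity)
  -- Pr k <= S (1 + k Br / Pr)
  have h1 : Pr * k ≤ S * (1 + k * (Br / Pr)) := by
    have h2 : Pr ^ 2 * k ^ 2 = (Pr * k) * (k * Pr) := by ring
    have h3 : S * (k * Pr + k ^ 2 * Br) = (S * (1 + k * (Br / Pr))) * (k * Pr) := by
      field_simp
    rw [h2, h3] at hmain
    exact le_of_mul_le_mul_right hmain (by positivity)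
  have hS0 : 0 ≤ S := by positivity
  have h4 : Br / Pr ≤ 4 * C / a * (LL / L) := by
    rw [div_le_iff₀ hPr0]
    have h5 : 4 * C / a * (LL / L) * (a / 4 * (N / L)) ≤ 4 * C / a * (LL / L) * Pr :=
      mul_le_mul_of_nonneg_left hPl (by positivity)
    have h6 : 4 * C / a * (LL / L) * (a / 4 * (N / L)) = Br := by
      rw [hBr]
      field_simp
    linarith
  set μ : ℝ := min (k / L) (1 / LL) with hμ
  have hμ1 : μ ≤ k / L := min_le_left _ _
  have hμ2 : μ ≤ 1 / LL := min_le_right _ _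
  have hμ0 : 0 ≤ μ := le_min (by positivity) (by positivity)
  -- mu (1 + (k LL / L)) <= 2 ... k / L
  have h7 : μ * (1 + k * (Br / Pr)) ≤ (1 + 4 * (C + 1) / a) * (k / L) := by
    have h8 : μ * (k * (Br / Pr)) ≤ 4 * C / a * (k / L) := by
      have h9 : μ * (k * (Br / Pr)) ≤ μ * (k * (4 * C / a * (LL / L))) := by
        apply mul_le_mul_of_nonneg_left _ hμ0
        exact mul_le_mul_of_nonneg_left h4 (by linarith)
      have h10 : μ * (k * (4 * C / a * (LL / L))) ≤ 1 / LL * (k * (4 * C / a * (LL / L))) :=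
        mul_le_mul_of_nonneg_right hμ2 (by positivity)
      have h11 : 1 / LL * (k * (4 * C / a * (LL / L))) = 4 * C / a * (k / L) := by
        field_simp
      linarith
    have h12 : 4 * C / a * (k / L) ≤ 4 * (C + 1) / a * (k / L) := by
      apply mul_le_mul_of_nonneg_right _ (by positivity)
      apply div_le_div_of_nonneg_right _ ha.le
      linarith
    calc μ * (1 + k * (Br / Pr)) = μ + μ * (k * (Br / Pr)) := by ring
      _ ≤ k / L + 4 * (C + 1) / a * (k / L) := by linarith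
      _ = _ := by ring
  have h13 : (a / 4) * μ * N * (1 + k * (Br / Pr)) ≤ S * (1 + k * (Br / Pr)) * (1 + 4 * (C + 1) / a) := by
    calc (a / 4) * μ * N * (1 + k * (Br / Pr)) = (a / 4 * N) * (μ * (1 + k * (Br / Pr))) := by ring
      _ ≤ (a / 4 * N) * ((1 + 4 * (C + 1) / a) * (k / L)) :=
          mul_le_mul_of_nonneg_left h7 (by positivity)
      _ = (a / 4 * (N / L)) * k * (1 + 4 * (C + 1) / a) := by ring
      _ ≤ Pr * k * (1 + 4 * (C + 1) / a) := by
          apply mul_le_mul_of_nonneg_right _ (by positivity)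
          exact mul_le_mul_of_nonneg_right hPl (by linarith)
      _ ≤ S * (1 + k * (Br / Pr)) * (1 + 4 * (C + 1) / a) :=
          mul_le_mul_of_nonneg_right h1 (by positivity)
  have hD : 0 < 1 + k * (Br / Pr) := by positivity
  have hE : 0 < 1 + 4 * (C + 1) / a := by positivity
  have h14 : (a / 4) * μ * N ≤ S * (1 + 4 * (C + 1) / a) := by
    have e1 : S * (1 + k * (Br / Pr)) * (1 + 4 * (C + 1) / a) =
      (S * (1 + 4 * (C + 1) / a)) * (1 + k * (Br / Pr)) := by ring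
    rw [e1] at h13
    exact le_of_mul_le_mul_right h13 hD
  calc a / 4 / (1 + 4 * (C + 1) / a) * μ * N = (a / 4 * μ * N) / (1 + 4 * (C + 1) / a) := by ring
    _ ≤ S := by
      rw [div_le_iff₀ hE]
      exact h14

end Pool.Agent.QNP
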